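import Pool.Agent.Y866.PP.Prog2
import Pool.Agent.Y677.RSZ.Top

/-! Project SI (helper89): dense sets of integers without small prime factors in short intervals -/

set_option autoImplicit false

open Finset Filter

namespace Pool.Agent.K3h89.SI

open Pool.Agent.TH423.SH (PS PIj prb)
open Pool.Agent.Y677.RSZ (rt V Sys)
open Pool.Agent.Y866.PP (Fl Fl_sys V_eq)

theorem dense (k : ℕ) (ε δ κ : ℝ) (hε : 0 < ε) (hδ : 0 < δ) (hκ : 0 < κ) :
    ∃ (B : ℕ) (x₀ : ℝ), ∀ x H : ℝ, x₀ ≤ x → x ^ ε ≤ H → H ≤ x → ∀ T : Finset ℕ,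
      (∀ n ∈ T, x < n ∧ (n : ℝ) < x + H ∧ ∀ q : ℕ, q.Prime → q ∣ n → x ^ δ ≤ q) →
      κ * (H / Real.log x) ≤ T.card →
      ∃ a d : ℕ, 1 ≤ d ∧ (d : ℝ) ≤ Real.log x ^ B ∧ ∀ i < k, a + i * d ∈ T := by
  obtain ⟨g, hg⟩ : ∃ g : ℕ, g = ⌈2 / ε⌉₊ + 2 := ⟨_, rfl⟩
  obtain ⟨B, H₀, hE⟩ := Pool.Agent.Y677.RSZ.eng_all (max k 2) g (δ / 2) (κ * ε / 3)
    (le_max_right _ _) (half_pos hδ) (by positivity)
  have ev := ((tendsto_rpow_atTop hε).eventually_ge_atTop (max (H₀ : ℝ) 3)).and
    ((Real.tendsto_log_atTop.eventually_ge_atTop (2 : ℝ)).and (eventually_ge_atTop (4 : ℝ)))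
  obtain ⟨x₀, hx₀⟩ := eventually_atTop.1 ev
  refine ⟨2 * B, x₀, fun x H hx hxH hHx T hT hTc => ?_⟩
  obtain ⟨h1, hlog, hx4⟩ := hx₀ x hx
  have hx0 : (0 : ℝ) < x := by linarith
  have hH3 : (3 : ℝ) ≤ H := (le_max_right _ _).trans (h1.trans hxH)
  have hHH₀ : (H₀ : ℝ) ≤ H := (le_max_left _ _).trans (h1.trans hxH)
  have hH0 : (0 : ℝ) < H := by linarith
  obtain ⟨Hn, hHn⟩ : ∃ Hn : ℕ, Hn = ⌈H⌉₊ + 1 := ⟨_, rfl⟩
  obtain ⟨Y, hY⟩ : ∃ Y : ℕ, Y = ⌊x⌋₊ := ⟨_, rfl⟩
  have hHn1 : H + 1 ≤ Hn := by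
    rw [hHn]
    push_cast
    linarith [Nat.le_ceil H]
  have hHn2 : (Hn : ℝ) < H + 2 := by
    rw [hHn]
    push_cast
    linarith [Nat.ceil_lt_add_one hH0.le]
  have hHn2H : (Hn : ℝ) ≤ 2 * H := by linarith
  have hHn0 : (0 : ℝ) < Hn := by linarith
  have hY1 : (Y : ℝ) ≤ x := by
    rw [hY]
    exact Nat.floor_le hx0.le
  have hY2 : x < Y + 1 := by
    rw [hY]
    exact Nat.lt_floor_add_one x
  have hxx : 3 * x ≤ x ^ 2 := by nlinarith
  have hHnx : (Hn : ℝ) ≤ x ^ 2 := by linarith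
  have hlx : 0 < Real.log x := by linarith
  have hlH : ε * Real.log x ≤ Real.log H := by
    rw [← Real.log_rpow hx0]
    exact Real.log_le_log (by positivity) hxH
  have hlHn : Real.log H ≤ Real.log Hn := Real.log_le_log hH0 (by linarith)
  have hlHn0 : 0 < Real.log Hn := by
    have : 0 < ε * Real.log x := by positivity
    linarith
  have hlHn2 : Real.log Hn ≤ 2 * Real.log x := by
    have := Real.log_le_log hHn0 hHnx
    rw [Real.log_pow] at this
    exact_mod_cast this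
  have hpow : x ^ 2 ≤ (Hn : ℝ) ^ g := by
    have e1 : x ^ 2 = (x ^ ε) ^ (2 / ε) := by
      rw [← Real.rpow_mul hx0.le, mul_div_cancel₀ _ hε.ne']
      norm_cast
    rw [e1]
    calc (x ^ ε) ^ (2 / ε) ≤ H ^ (2 / ε) := Real.rpow_le_rpow (by positivity) hxH (by positivity)
      _ ≤ (Hn : ℝ) ^ (2 / ε) := Real.rpow_le_rpow hH0.le (by linarith) (by positivity)
      _ ≤ (Hn : ℝ) ^ (g : ℝ) := by
          apply Real.rpow_le_rpow_of_exponent_le (by linarith)
          rw [hg]
          push_cast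
          linarith [Nat.le_ceil (2 / ε)]
      _ = (Hn : ℝ) ^ g := Real.rpow_natCast _ _
  obtain ⟨a, d, hd1, hd2, hAP⟩ := hE (Fl 0 1) Y Hn T
    (Fl_sys 0 1 g (by norm_num) (by omega))
    (by
      have : (H₀ : ℝ) ≤ Hn := by linarith
      exact_mod_cast this)
    (by
      intro n hn
      rw [mem_Ioc] at hn
      have e1 : Fl 0 1 (n : ℤ) = (n : ℤ) := by
        unfold Fl
        push_cast
        ring
      rw [e1]
      refine ⟨by omega, ?_⟩
      rw [Nat.abs_cast]
      have h2 : (n : ℝ) ≤ (Hn : ℝ) ^ g := by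
        have h3 : (n : ℝ) ≤ Y + Hn := by exact_mod_cast hn.2
        refine le_trans ?_ hpow
        linarith
      have h4 : n ≤ Hn ^ g := by exact_mod_cast h2
      exact_mod_cast h4)
    (by
      intro n hn
      obtain ⟨h2, h3, -⟩ := hT n hn
      rw [mem_Ioc]
      constructor
      · have : (Y : ℝ) < n := by linarith
        exact_mod_cast this
      · have : (n : ℝ) < ((Y + Hn : ℕ) : ℝ) := by
          push_cast
          linarith
        have h4 : n < Y + Hn := by exact_mod_cast this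
        exact h4.le)
    (by
      intro n hn p hp hpH hpn
      obtain ⟨-, -, h4⟩ := hT n hn
      have e1 : Fl 0 1 (n : ℤ) = (n : ℤ) := by
        unfold Fl
        push_cast
        ring
      rw [e1] at hpn
      have h5 := h4 p hp (by exact_mod_cast hpn)
      have h6 : (Hn : ℝ) ^ (δ / 2) < x ^ δ := by
        have h7 : (Hn : ℝ) < x ^ 2 := by nlinarith
        calc (Hn : ℝ) ^ (δ / 2) < (x ^ 2) ^ (δ / 2) := Real.rpow_lt_rpow hHn0.le h7 (half_pos hδ)
          _ = x ^ δ := by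
              rw [← Real.rpow_natCast, ← Real.rpow_mul hx0.le]
              congr 1
              push_cast
              ring
      linarith)
    (by
      rw [V_eq 0 1 (by norm_num)]
      have hp := prb 1 Hn le_rfl (by
        have : (2 : ℝ) ≤ Hn := by linarith
        exact_mod_cast this)
      rw [Nat.totient_one] at hp
      refine le_trans ?_ hTc
      have h6 : PIj 1 Hn 1 ≤ 1 / Real.log Hn := by
        rw [le_div_iff₀ hlHn0]
        simpa using hp
      have h7 : PIj 1 Hn 1 ≤ 1 / (ε * Real.log x) := by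
        refine h6.trans ?_
        apply one_div_le_one_div_of_le (by positivity)
        linarith
      have h8 : (0 : ℝ) ≤ 1 / (ε * Real.log x) := by positivity
      calc κ * ε / 3 * (Hn * PIj 1 Hn 1) ≤ κ * ε / 3 * (2 * H * (1 / (ε * Real.log x))) := by
            apply mul_le_mul_of_nonneg_left _ (by positivity)
            calc (Hn : ℝ) * PIj 1 Hn 1 ≤ Hn * (1 / (ε * Real.log x)) := mul_le_mul_of_nonneg_left h7 hHn0.le
              _ ≤ 2 * H * (1 / (ε * Real.log x)) := mul_le_mul_of_nonneg_right hHn2H h8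
        _ = 2 / 3 * (κ * (H / Real.log x)) := by
            field_simp
        _ ≤ κ * (H / Real.log x) := by
            have : 0 ≤ κ * (H / Real.log x) := by positivity
            linarith)
  refine ⟨a, d, hd1, hd2.trans ?_, fun i hi => hAP i (lt_of_lt_of_le hi (le_max_left _ _))⟩
  calc Real.log Hn ^ B ≤ (2 * Real.log x) ^ B := pow_le_pow_left₀ hlHn0.le hlHn2 B
    _ ≤ (Real.log x * Real.log x) ^ B := by
        apply pow_le_pow_left₀ (by positivity)
        nlinarith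
    _ = Real.log x ^ (2 * B) := by
        rw [← pow_two, ← pow_mul]

end Pool.Agent.K3h89.SI
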