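import Pool.Agent.K3h89.SI.Cnt
import Pool.Agent.K3h89.SI.Dense
import Pool.Agent.H295R3.Hoheisel

/-! Project SI (helper89): real variables -/

set_option autoImplicit false

open Finset Filter

namespace Pool.Agent.K3h89.SI

open Pool.Agent.K3h19.RV (Lam)
open Pool.Agent.K3h31

theorem pow_gap (a b : ℝ) (ha : 0 ≤ a) (hab : a < b) : ∀ᶠ x : ℝ in atTop, (2 * x) ^ a + 2 ≤ x ^ b := by
  filter_upwards [(tendsto_rpow_atTop (sub_pos.2 hab)).eventually_ge_atTop ((2 : ℝ) ^ a + 2),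
    eventually_ge_atTop (1 : ℝ)] with x h1 h2
  have hx0 : (0 : ℝ) < x := by linarith
  have h3 : (1 : ℝ) ≤ x ^ a := Real.one_le_rpow h2 ha
  have e : x ^ b = x ^ a * x ^ (b - a) := by
    rw [← Real.rpow_add hx0]
    congr 1
    ring
  rw [Real.mul_rpow (by norm_num) hx0.le, e]
  nlinarith

/-- almost primes in every interval `(x, x + H)`, `x ^ θ ≤ H ≤ x` -/
theorem count_ap (r : ℕ) (hr : 1 ≤ r) (θ : ℝ) (h0 : 0 < Lam r) (h : 1 / Lam r < θ) (hθ : θ ≤ 1) :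
    ∃ c : ℝ, 0 < c ∧ ∃ x₀ : ℝ, ∀ x H : ℝ, x₀ ≤ x → x ^ θ ≤ H → H ≤ x →
      c * (H / Real.log x) ≤ ({n : ℕ | x < n ∧ (n : ℝ) < x + H ∧ n.primeFactorsList.length ≤ r ∧
        ∀ q : ℕ, q.Prime → q ∣ n → x ^ (1 / (4 * Lam r)) ≤ q}.ncard : ℝ) := by
  classical
  obtain ⟨θ', ha, hb⟩ := exists_between h
  obtain ⟨τ, hc, hd⟩ := exists_between ha
  have hτ0 : 0 < τ := lt_trans (by positivity) hc
  have hτL : 1 < τ * Lam r := by
    rw [div_lt_iff₀ h0] at hc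
    exact hc
  obtain ⟨δ, hδ, X₀, hX⟩ := every r hr τ θ' hτ0 hτL hd (by linarith)
  have ev := (pow_gap θ' θ (by linarith) hb).and ((eventually_ge_atTop (X₀ : ℝ)).and (eventually_ge_atTop (4 : ℝ)))
  obtain ⟨x₀, hx₀⟩ := eventually_atTop.1 ev
  refine ⟨δ / 4, by positivity, x₀, fun x H hx hxH hHx => ?_⟩
  obtain ⟨g1, g2, g3⟩ := hx₀ x hx
  have hx0 : (0 : ℝ) < x := by linarith
  obtain ⟨X, hXd⟩ : ∃ X : ℕ, X = ⌈x⌉₊ := ⟨_, rfl⟩
  obtain ⟨y, hyd⟩ : ∃ y : ℕ, y = ⌊x⌋₊ := ⟨_, rfl⟩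
  obtain ⟨Hn, hHnd⟩ : ∃ Hn : ℕ, Hn = ⌈H⌉₊ - 1 := ⟨_, rfl⟩
  have hX1 : x ≤ X := by rw [hXd]; exact Nat.le_ceil x
  have hX2 : (X : ℝ) < x + 1 := by rw [hXd]; exact Nat.ceil_lt_add_one hx0.le
  have hy1 : (y : ℝ) ≤ x := by rw [hyd]; exact Nat.floor_le hx0.le
  have hy2 : x < y + 1 := by rw [hyd]; exact Nat.lt_floor_add_one x
  have hH2 : 2 ≤ H := by
    have : (0 : ℝ) ≤ (2 * x) ^ θ' := by positivity
    linarith
  have hc1 : 1 ≤ ⌈H⌉₊ := Nat.one_le_iff_ne_zero.2 (Nat.ceil_pos.2 (by linarith)).ne'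
  have hHn1 : (Hn : ℝ) < H := by
    rw [hHnd]
    have := Nat.ceil_lt_add_one (show (0 : ℝ) ≤ H by linarith)
    rw [Nat.cast_sub hc1]
    push_cast
    linarith
  have hHn2 : H - 1 ≤ Hn := by
    rw [hHnd, Nat.cast_sub hc1]
    push_cast
    linarith [Nat.le_ceil H]
  have hyn1 : 1 ≤ y := by
    have : (0 : ℝ) < y := by linarith
    exact_mod_cast this
  have hyX : y ≤ X := by
    have : (y : ℝ) ≤ X := by linarith
    exact_mod_cast this
  have hHnX : Hn ≤ X := by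
    have : (Hn : ℝ) ≤ X := by linarith
    exact_mod_cast this
  have hXθ : (X : ℝ) ^ θ' ≤ Hn := by
    have h1 : (X : ℝ) ^ θ' ≤ (2 * x) ^ θ' := Real.rpow_le_rpow (Nat.cast_nonneg _) (by linarith) (by linarith)
    linarith
  have h1 := hX X (by
    have : (X₀ : ℝ) ≤ X := by linarith
    exact_mod_cast this) Hn hXθ hHnX y hyn1 hyX
  -- the image
  have hfin : {n : ℕ | x < n ∧ (n : ℝ) < x + H ∧ n.primeFactorsList.length ≤ r ∧
        ∀ q : ℕ, q.Prime → q ∣ n → x ^ (1 / (4 * Lam r)) ≤ q}.Finite := by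
    apply (Set.finite_Iic ⌈x + H⌉₊).subset
    intro n hn
    have h3 : (n : ℝ) ≤ ⌈x + H⌉₊ := hn.2.1.le.trans (Nat.le_ceil _)
    exact_mod_cast h3
  have h2 : ((WL.good r ((X : ℝ) ^ (τ / 4)) Hn y).card : ℝ) ≤
      ({n : ℕ | x < n ∧ (n : ℝ) < x + H ∧ n.primeFactorsList.length ≤ r ∧
        ∀ q : ℕ, q.Prime → q ∣ n → x ^ (1 / (4 * Lam r)) ≤ q}.ncard : ℝ) := by
    rw [Nat.cast_le, ← card_image_of_injective _ (fun a b h => Nat.add_left_cancel h : Function.Injective (fun j => y + j)),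
      ← Set.ncard_coe_finset]
    apply Set.ncard_le_ncard _ hfin
    intro n hn
    rw [coe_image] at hn
    obtain ⟨j, hj, rfl⟩ := hn
    rw [mem_coe] at hj
    unfold WL.good at hj
    rw [mem_filter, mem_Icc] at hj
    obtain ⟨⟨j1, j2⟩, j3, j4⟩ := hj
    have j1r : (1 : ℝ) ≤ j := by exact_mod_cast j1
    have j2r : (j : ℝ) ≤ Hn := by exact_mod_cast j2
    refine ⟨?_, ?_, j3, fun q hq hqd => ?_⟩
    · push_cast
      linarith
    · push_cast
      linarith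
    · refine le_trans ?_ (j4 q hq hqd)
      calc x ^ (1 / (4 * Lam r)) ≤ x ^ (τ / 4) := by
            apply Real.rpow_le_rpow_of_exponent_le (by linarith)
            have e : 1 / (4 * Lam r) = (1 / Lam r) / 4 := by
              field_simp
            rw [e]
            linarith
        _ ≤ (X : ℝ) ^ (τ / 4) := Real.rpow_le_rpow hx0.le hX1 (by linarith)
  refine le_trans ?_ (h1.trans h2)
  have hlx : 0 < Real.log x := Real.log_pos (by linarith)
  have hlX : Real.log X ≤ 2 * Real.log x := by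
    have h3 : Real.log X ≤ Real.log (x ^ 2) := Real.log_le_log (by linarith) (by nlinarith)
    rw [Real.log_pow] at h3
    exact_mod_cast h3
  have hlX0 : 0 < Real.log X := Real.log_pos (by linarith)
  rw [← mul_div_assoc, div_le_div_iff₀ hlx hlX0]
  have h5 : H / 2 ≤ Hn := by linarith
  calc δ / 4 * H * Real.log X ≤ δ / 4 * H * (2 * Real.log x) :=
        mul_le_mul_of_nonneg_left hlX (by positivity)
    _ = δ * (H / 2) * Real.log x := by ring
    _ ≤ δ * Hn * Real.log x := by gcongr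

/-- primes in every interval `(x, x + H)`, `x ^ θ ≤ H ≤ x`, from the elementary proof of Hoheisel's theorem in the
starting library -/
theorem count_primes : ∃ θ c : ℝ, 0 < θ ∧ θ < 1 ∧ 0 < c ∧ ∃ x₀ : ℝ, ∀ x H : ℝ, x₀ ≤ x → x ^ θ ≤ H → H ≤ x →
      c * (H / Real.log x) ≤ ({p : ℕ | p.Prime ∧ x < p ∧ (p : ℝ) < x + H}.ncard : ℝ) := by
  classical
  obtain ⟨δ, η, hδ0, hδ1, hη, X₀, -, hX⟩ := Pool.Agent.H295R3.D.hoheisel
  have ev := (pow_gap (1 - δ) (1 - δ / 2) (by linarith) (by linarith)).and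
    ((eventually_ge_atTop (X₀ : ℝ)).and (eventually_ge_atTop (4 : ℝ)))
  obtain ⟨x₀, hx₀⟩ := eventually_atTop.1 ev
  have ev2 := (pow_gap 0 (1 - δ / 2) le_rfl (by linarith))
  obtain ⟨x₁, hx₁⟩ := eventually_atTop.1 ((tendsto_rpow_atTop (show 0 < 1 - δ / 2 by linarith)).eventually_ge_atTop (4 : ℝ))
  refine ⟨1 - δ / 2, η / 4, by linarith, by linarith, by positivity, max x₀ x₁, fun x H hx hxH hHx => ?_⟩
  obtain ⟨g1, g2, g3⟩ := hx₀ x ((le_max_left _ _).trans hx)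
  have g4 := (hx₁ x ((le_max_right _ _).trans hx)).trans hxH
  have hx0 : (0 : ℝ) < x := by linarith
  obtain ⟨X, hXd⟩ : ∃ X : ℕ, X = ⌈x⌉₊ := ⟨_, rfl⟩
  obtain ⟨Y, hYd⟩ : ∃ Y : ℕ, Y = ⌊H - 1⌋₊ := ⟨_, rfl⟩
  have hX1 : x ≤ X := by rw [hXd]; exact Nat.le_ceil x
  have hX2 : (X : ℝ) < x + 1 := by rw [hXd]; exact Nat.ceil_lt_add_one hx0.le
  have hY1 : (Y : ℝ) ≤ H - 1 := by rw [hYd]; exact Nat.floor_le (by linarith)
  have hY2 : H - 2 ≤ Y := by
    rw [hYd]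
    have := Nat.lt_floor_add_one (H - 1)
    linarith
  have hYX : Y ≤ X := by
    have : (Y : ℝ) ≤ X := by linarith
    exact_mod_cast this
  have hXθ : (X : ℝ) ^ (1 - δ) ≤ Y := by
    have h1 : (X : ℝ) ^ (1 - δ) ≤ (2 * x) ^ (1 - δ) :=
      Real.rpow_le_rpow (Nat.cast_nonneg _) (by linarith) (by linarith)
    linarith
  have h1 := hX X Y (by
    have : (X₀ : ℝ) ≤ X := by linarith
    exact_mod_cast this) hXθ hYX
  have hfin : {p : ℕ | p.Prime ∧ x < p ∧ (p : ℝ) < x + H}.Finite := by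
    apply (Set.finite_Iic ⌈x + H⌉₊).subset
    intro n hn
    have h3 : (n : ℝ) ≤ ⌈x + H⌉₊ := hn.2.2.le.trans (Nat.le_ceil _)
    exact_mod_cast h3
  have h2 : (((Ioc X (X + Y)).filter Nat.Prime).card : ℝ) ≤
      ({p : ℕ | p.Prime ∧ x < p ∧ (p : ℝ) < x + H}.ncard : ℝ) := by
    rw [Nat.cast_le, ← Set.ncard_coe_finset]
    apply Set.ncard_le_ncard _ hfin
    intro p hp
    rw [mem_coe, mem_filter, mem_Ioc] at hp
    obtain ⟨⟨p1, p2⟩, p3⟩ := hp
    have p1r : (X : ℝ) < p := by exact_mod_cast p1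
    have p2r : (p : ℝ) ≤ X + Y := by exact_mod_cast p2
    exact ⟨p3, by linarith, by linarith⟩
  refine le_trans ?_ (h1.trans h2)
  have hlx : 0 < Real.log x := Real.log_pos (by linarith)
  have hlX : Real.log X ≤ 2 * Real.log x := by
    have h3 : Real.log X ≤ Real.log (x ^ 2) := Real.log_le_log (by linarith) (by nlinarith)
    rw [Real.log_pow] at h3
    exact_mod_cast h3
  have hlX0 : 0 < Real.log X := Real.log_pos (by linarith)
  rw [← mul_div_assoc, div_le_div_iff₀ hlx hlX0]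
  have h5 : H / 2 ≤ Y := by linarith
  calc η / 4 * H * Real.log X ≤ η / 4 * H * (2 * Real.log x) :=
        mul_le_mul_of_nonneg_left hlX (by positivity)
    _ = η * (H / 2) * Real.log x := by ring
    _ ≤ η * Y * Real.log x := by gcongr

end Pool.Agent.K3h89.SI
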