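import Pool.Agent.K3h31.WL.Main

/-! Project SI (helper89): almost primes in EVERY short interval (the weights of helper31 and helper19, `K3h31.WL`,
`K3h19.RV`, with the trivial bound for the remainder term) -/

set_option autoImplicit false

open Finset Filter

namespace Pool.Agent.K3h89.SI

open Pool.Agent.W23.DC
open Pool.Agent.Y882
open Pool.Agent.Y882.PX
open Pool.Agent.Y882.KW
open Pool.Agent.K3h19.RV (Lam richert)
open Pool.Agent.K3h31
open Pool.Agent.K3h31.WL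

theorem cnt_dvd (d H x : ℕ) (hd : 0 < d) :
    |(((Icc 1 H).filter (fun j => d ∣ x + j)).card : ℝ) - (H : ℝ) / d| ≤ 1 := by
  have e1 : ((Icc 1 H).filter (fun j => d ∣ x + j)).card + x / d = (x + H) / d := by
    rw [← Nat.Ioc_filter_dvd_card_eq_div (x + H) d, ← Nat.Ioc_filter_dvd_card_eq_div x d]
    have e2 : (Ioc 0 (x + H)).filter (fun m => d ∣ m) =
        (((Icc 1 H).filter (fun j => d ∣ x + j)).image (fun j => x + j)) ∪ (Ioc 0 x).filter (fun m => d ∣ m) := by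
      ext m
      simp only [mem_filter, mem_Ioc, mem_union, mem_image, mem_Icc]
      constructor
      · rintro ⟨⟨h1, h2⟩, h3⟩
        by_cases h4 : m ≤ x
        · exact Or.inr ⟨⟨h1, h4⟩, h3⟩
        · refine Or.inl ⟨m - x, ⟨⟨by omega, by omega⟩, ?_⟩, by omega⟩
          rwa [show x + (m - x) = m by omega]
      · rintro (⟨j, ⟨⟨h1, h2⟩, h3⟩, rfl⟩ | ⟨⟨h1, h2⟩, h3⟩)
        · exact ⟨⟨by omega, by omega⟩, h3⟩
        · exact ⟨⟨h1, by omega⟩, h3⟩
    rw [e2, card_union_of_disjoint, card_image_of_injective _ (fun a b h => Nat.add_left_cancel h)]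
    rw [disjoint_left]
    intro m hm hm2
    simp only [mem_image, mem_filter, mem_Icc, mem_Ioc] at hm hm2
    obtain ⟨j, hj, rfl⟩ := hm
    omega
  have hdr : (0 : ℝ) < d := by exact_mod_cast hd
  have a1 : (((x + H) / d : ℕ) : ℝ) ≤ ((x : ℝ) + H) / d := by
    have := Nat.cast_div_le (m := x + H) (n := d) (α := ℝ)
    push_cast at this
    exact this
  have a2 : ((x / d : ℕ) : ℝ) ≤ (x : ℝ) / d := Nat.cast_div_le
  have a3 : ((x : ℝ) + H) / d - 1 < (((x + H) / d : ℕ) : ℝ) := by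
    rw [sub_lt_iff_lt_add, div_lt_iff₀ hdr]
    have h1 : x + H < ((x + H) / d + 1) * d := by
      have := Nat.lt_mul_div_succ (x + H) hd
      rw [mul_comm] at this
      exact this
    exact_mod_cast h1
  have a4 : (x : ℝ) / d - 1 < ((x / d : ℕ) : ℝ) := by
    rw [sub_lt_iff_lt_add, div_lt_iff₀ hdr]
    have h1 : x < (x / d + 1) * d := by
      have := Nat.lt_mul_div_succ x hd
      rw [mul_comm] at this
      exact this
    exact_mod_cast h1
  have e3 : (((Icc 1 H).filter (fun j => d ∣ x + j)).card : ℝ) + ((x / d : ℕ) : ℝ) = (((x + H) / d : ℕ) : ℝ) := by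
    exact_mod_cast e1
  have e4 : ((x : ℝ) + H) / d = x / d + H / d := add_div _ _ _
  rw [abs_le]
  constructor <;> linarith

theorem card_T (P : Finset ℕ) (hP : ∀ p ∈ P, p.Prime) (D : ℕ) :
    (P.powerset.filter (fun T => ∏ p ∈ T, p ≤ D)).card ≤ D := by
  have h := card_le_card_of_injOn (s := P.powerset.filter (fun T => ∏ p ∈ T, p ≤ D)) (t := Icc 1 D)
    (fun T => ∏ p ∈ T, p)
    (by
      intro T hT
      rw [mem_coe, mem_filter, mem_powerset] at hT
      rw [mem_coe, mem_Icc]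
      exact ⟨Nat.one_le_iff_ne_zero.2 (prod_ne_zero_iff.2 fun p hp => (hP p (hT.1 hp)).ne_zero), hT.2⟩)
    (by
      intro T hT T' hT' he
      rw [mem_coe, mem_filter, mem_powerset] at hT hT'
      have e1 := Nat.primeFactors_prod (fun p hp => hP p (hT.1 hp))
      have e2 := Nat.primeFactors_prod (fun p hp => hP p (hT'.1 hp))
      rw [← e1, ← e2]
      exact congrArg Nat.primeFactors he)
  rwa [Nat.card_Icc, Nat.add_sub_cancel] at h

/-- **Almost primes in every short interval.** -/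
theorem every (r : ℕ) (hr : 1 ≤ r) (τ θ : ℝ) (hτ0 : 0 < τ) (h : 1 < τ * Lam r) (hτθ : τ < θ) (hθ : θ ≤ 1) :
    ∃ δ : ℝ, 0 < δ ∧ ∃ X₀ : ℕ, ∀ X : ℕ, X₀ ≤ X → ∀ H : ℕ, (X : ℝ) ^ θ ≤ H → H ≤ X → ∀ x : ℕ, 1 ≤ x → x ≤ X →
      δ * H / Real.log X ≤ ((WL.good r ((X : ℝ) ^ (τ / 4)) H x).card : ℝ) := by
  classical
  obtain ⟨υ, lam, S, hζυ, hυτ, hlam, hS, hrS, hint⟩ := richert r hr τ hτ0 h
  obtain ⟨τ', hτ'⟩ : ∃ τ' : ℝ, τ' = (τ + θ) / 2 := ⟨_, rfl⟩
  obtain ⟨δ₀, hδ₀, Y0, HL⟩ := LP.lower τ (τ / 4) υ lam τ' (by linarith) (by linarith) (by linarith)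
    (by linarith) hζυ hυτ hlam hint (by linarith)
  have ev1 : ∀ᶠ X : ℕ in atTop, (2 : ℝ) ≤ (X : ℝ) ^ (S - 1) :=
    ((tendsto_rpow_atTop (show 0 < S - 1 by linarith)).comp
      tendsto_natCast_atTop_atTop).eventually_ge_atTop _
  have ev2 : ∀ᶠ X : ℕ in atTop, (20 / δ₀) * Real.log X ^ 2 * (X : ℝ) ^ τ' ≤ (X : ℝ) ^ θ :=
    LP.log_pow_le (20 / δ₀) 2 τ' θ (by linarith)
  have ev3 : ∀ᶠ X : ℕ in atTop, (8 / δ₀) * Real.log X ^ 1 * (X : ℝ) ^ υ ≤ (X : ℝ) ^ θ :=
    LP.log_pow_le (8 / δ₀) 1 υ θ (by linarith)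
  have ev4 : ∀ᶠ X : ℕ in atTop, (16 / δ₀) * Real.log X ^ 1 * (X : ℝ) ^ (0 : ℝ) ≤ (X : ℝ) ^ (τ / 4) :=
    LP.log_pow_le (16 / δ₀) 1 0 (τ / 4) (by linarith)
  have ev5 : ∀ᶠ X : ℕ in atTop, (2 : ℝ) ≤ (X : ℝ) ^ (τ / 4) :=
    ((tendsto_rpow_atTop (show 0 < τ / 4 by linarith)).comp tendsto_natCast_atTop_atTop).eventually_ge_atTop _
  obtain ⟨X1, hX1⟩ := eventually_atTop.1 (((ev1.and ev2).and (ev3.and ev4)).and ev5)
  refine ⟨δ₀ / 2, by positivity, max (max Y0 X1) 3, ?_⟩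
  intro X hX H hHθ hHX x hx1 hxX
  have hXY : Y0 ≤ X := ((le_max_left _ _).trans (le_max_left _ _)).trans hX
  obtain ⟨⟨⟨w1, w2⟩, w3, w4⟩, w5⟩ := hX1 X (((le_max_right _ _).trans (le_max_left _ _)).trans hX)
  have hX3' : 3 ≤ X := (le_max_right _ _).trans hX
  have hXr : (3 : ℝ) ≤ X := by exact_mod_cast hX3'
  have hX0 : (0 : ℝ) < X := by linarith
  have hL1 : 1 ≤ Real.log X := by
    have : Real.exp 1 ≤ X := by linarith [Real.exp_one_lt_d9]
    rw [Real.le_log_iff_exp_le hX0]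
    exact this
  have hL0 : 0 < Real.log X := by linarith
  have hXθ : (0 : ℝ) < (X : ℝ) ^ θ := by positivity
  have hH0 : (0 : ℝ) < H := lt_of_lt_of_le hXθ hHθ
  rw [Real.rpow_zero, mul_one] at w4
  rw [pow_one] at w3 w4
  obtain ⟨c, hcL, hcD, hcV⟩ := HL X hXY
  have hPZ : ∀ p ∈ PZ X υ, p.Prime ∧ p ≤ X := by
    intro p hp
    unfold PZ at hp
    rw [mem_filter, mem_Icc] at hp
    exact ⟨hp.2.1, hp.1.2⟩
  obtain ⟨D, hD⟩ : ∃ D : ℕ, D = ⌊(X : ℝ) ^ τ'⌋₊ := ⟨_, rfl⟩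
  have hDr : (D : ℝ) ≤ (X : ℝ) ^ τ' := by
    rw [hD]
    exact Nat.floor_le (by positivity)
  -- the remainder term
  have hrem : |∑ T ∈ (PZ X υ).powerset, c T *
      ((((Icc 1 H).filter (fun j => ∏ p ∈ T, p ∣ x + j)).card : ℝ) - (Icc 1 H).card * ∏ p ∈ T, (1 / (p : ℝ)))| ≤
      5 * Real.log X * (X : ℝ) ^ τ' := by
    have e1 : ∑ T ∈ (PZ X υ).powerset, c T *
        ((((Icc 1 H).filter (fun j => ∏ p ∈ T, p ∣ x + j)).card : ℝ) - (Icc 1 H).card * ∏ p ∈ T, (1 / (p : ℝ))) =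
        ∑ T ∈ (PZ X υ).powerset.filter (fun T => ∏ p ∈ T, p ≤ D), c T *
        ((((Icc 1 H).filter (fun j => ∏ p ∈ T, p ∣ x + j)).card : ℝ) - (Icc 1 H).card * ∏ p ∈ T, (1 / (p : ℝ))) := by
      symm
      apply sum_subset (filter_subset _ _)
      intro T hT hT2
      rw [mem_filter, not_and] at hT2
      have hT3 := hT2 hT
      have hc0 : c T = 0 := by
        by_contra hcon
        have h1 := hcD T (mem_powerset.1 hT) hcon
        apply hT3
        rw [hD]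
        exact Nat.le_floor (by exact_mod_cast h1)
      rw [hc0, zero_mul]
    rw [e1]
    calc |∑ T ∈ (PZ X υ).powerset.filter (fun T => ∏ p ∈ T, p ≤ D), c T *
        ((((Icc 1 H).filter (fun j => ∏ p ∈ T, p ∣ x + j)).card : ℝ) - (Icc 1 H).card * ∏ p ∈ T, (1 / (p : ℝ)))| ≤
        ∑ T ∈ (PZ X υ).powerset.filter (fun T => ∏ p ∈ T, p ≤ D), 5 * Real.log X := by
          refine (abs_sum_le_sum_abs _ _).trans (sum_le_sum fun T hT => ?_)
          rw [mem_filter, mem_powerset] at hT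
          rw [abs_mul]
          have h1 := cnt_dvd (∏ p ∈ T, p) H x
            (Nat.pos_of_ne_zero (prod_ne_zero_iff.2 fun p hp => (hPZ p (hT.1 hp)).1.ne_zero))
          have e2 : ((Icc 1 H).card : ℝ) * ∏ p ∈ T, (1 / (p : ℝ)) = (H : ℝ) / ((∏ p ∈ T, p : ℕ) : ℝ) := by
            rw [Nat.card_Icc, Nat.add_sub_cancel, prod_div_distrib, prod_const_one]
            push_cast
            rw [mul_one_div]
          rw [e2]
          calc |c T| * _ ≤ 5 * Real.log X * 1 := mul_le_mul (hcL T) h1 (abs_nonneg _) (by positivity)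
            _ = 5 * Real.log X := mul_one _
      _ = ((PZ X υ).powerset.filter (fun T => ∏ p ∈ T, p ≤ D)).card * (5 * Real.log X) := by
          rw [sum_const, nsmul_eq_mul]
      _ ≤ (X : ℝ) ^ τ' * (5 * Real.log X) := by
          apply mul_le_mul_of_nonneg_right _ (by positivity)
          refine le_trans ?_ hDr
          exact_mod_cast card_T _ (fun p hp => (hPZ p hp).1) D
      _ = 5 * Real.log X * (X : ℝ) ^ τ' := by ring
  -- the sieve inequality
  have hsieve : δ₀ * H / Real.log X - 5 * Real.log X * (X : ℝ) ^ τ' ≤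
      ((WL.good r ((X : ℝ) ^ (τ / 4)) H x).card : ℝ) + ((sqs X (τ / 4) υ H x).card : ℝ) := by
    have h1 := hcV (fun p => 1 / (p : ℝ)) (Or.inr (by norm_num)) (fun p _ _ => rfl) (Icc 1 H) (fun j => x + j)
    have h2 := neg_le_of_abs_le hrem
    have h3 : (Icc 1 H).filter (fun j => 0 < WW X (τ / 4) υ lam (lam / υ) (x + j)) ⊆
        WL.good r ((X : ℝ) ^ (τ / 4)) H x ∪ sqs X (τ / 4) υ H x := by
      intro j hj
      rw [mem_filter] at hj
      have hj1 := mem_Icc.1 hj.1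
      rw [mem_union]
      by_cases hs : ∃ q ∈ pr X (τ / 4) υ, q ^ 2 ∣ x + j
      · right
        unfold sqs
        rw [mem_filter]
        exact ⟨hj.1, hs⟩
      · left
        push Not at hs
        unfold WL.good
        rw [mem_filter]
        refine ⟨hj.1, ?_⟩
        apply almost X (by omega) (τ / 4) υ lam S r hζυ (by linarith) (by linarith) hlam hrS (x + j)
          (by omega) _ hj.2 hs
        have h4 : ((x + j : ℕ) : ℝ) ≤ 2 * X := by
          have : x + j ≤ 2 * X := by omega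
          exact_mod_cast this
        refine h4.trans ?_
        calc 2 * (X : ℝ) ≤ (X : ℝ) ^ (S - 1) * X := by gcongr
          _ = (X : ℝ) ^ S := by
            rw [← Real.rpow_add_one (by positivity)]
            congr 1
            ring
    have h4 := (card_le_card h3).trans (card_union_le _ _)
    have h5 : (((Icc 1 H).filter (fun j => 0 < WW X (τ / 4) υ lam (lam / υ) (x + j))).card : ℝ) ≤
        ((WL.good r ((X : ℝ) ^ (τ / 4)) H x).card : ℝ) + ((sqs X (τ / 4) υ H x).card : ℝ) := by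
      exact_mod_cast h4
    have e5 : δ₀ * ((Icc 1 H).card : ℝ) / Real.log X = δ₀ * H / Real.log X := by
      rw [Nat.card_Icc, Nat.add_sub_cancel]
    rw [e5] at h1
    linarith
  -- the squares
  have hsq : ((sqs X (τ / 4) υ H x).card : ℝ) ≤ δ₀ / 4 * H / Real.log X := by
    have h1 : sqs X (τ / 4) υ H x ⊆ (pr X (τ / 4) υ).biUnion (fun q => (Icc 1 H).filter (fun j => q ^ 2 ∣ x + j)) := by
      intro j hj
      unfold sqs at hj
      rw [mem_filter] at hj
      obtain ⟨h1, q, hq, hqd⟩ := hj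
      rw [mem_biUnion]
      exact ⟨q, hq, mem_filter.2 ⟨h1, hqd⟩⟩
    have h2 : ((sqs X (τ / 4) υ H x).card : ℝ) ≤
        ∑ q ∈ pr X (τ / 4) υ, (((Icc 1 H).filter (fun j => q ^ 2 ∣ x + j)).card : ℝ) := by
      have := (card_le_card h1).trans card_biUnion_le
      exact_mod_cast this
    have h3 : ∀ q ∈ pr X (τ / 4) υ, (((Icc 1 H).filter (fun j => q ^ 2 ∣ x + j)).card : ℝ) ≤
        H * (1 / (q : ℝ) ^ 2) + 1 := by
      intro q hq
      have hq0 := (LP.pr_facts (by omega) hq).1.pos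
      have h4 := le_of_abs_le (cnt_dvd (q ^ 2) H x (by positivity))
      push_cast at h4
      rw [mul_one_div]
      linarith
    have h4 : ((pr X (τ / 4) υ).card : ℝ) ≤ (X : ℝ) ^ υ := by
      have h5 : pr X (τ / 4) υ ⊆ Ioc 0 ⌊(X : ℝ) ^ υ⌋₊ := by
        intro q hq
        have hq1 := LP.pr_facts (by omega) hq
        rw [mem_Ioc]
        exact ⟨hq1.1.pos, Nat.le_floor hq1.2.2.2.le⟩
      have h6 := card_le_card h5
      rw [Nat.card_Ioc, Nat.sub_zero] at h6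
      have h7 : ((pr X (τ / 4) υ).card : ℝ) ≤ (⌊(X : ℝ) ^ υ⌋₊ : ℝ) := by exact_mod_cast h6
      exact h7.trans (Nat.floor_le (by positivity))
    have h5 := LP.pr_sq (Y := X) (by omega) (τ / 4) υ w5
    have h6 : ((sqs X (τ / 4) υ H x).card : ℝ) ≤ H * (2 / (X : ℝ) ^ (τ / 4)) + (X : ℝ) ^ υ := by
      refine (h2.trans (sum_le_sum h3)).trans ?_
      rw [sum_add_distrib, ← mul_sum, sum_const, nsmul_eq_mul, mul_one]
      exact add_le_add (mul_le_mul_of_nonneg_left h5 hH0.le) h4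
    have h7 : 2 / (X : ℝ) ^ (τ / 4) ≤ δ₀ / 8 / Real.log X := by
      rw [div_le_div_iff₀ (by positivity) hL0]
      have e1 : δ₀ / 8 * ((16 / δ₀) * Real.log X) = 2 * Real.log X := by
        field_simp
        ring
      have := mul_le_mul_of_nonneg_left w4 (show (0 : ℝ) ≤ δ₀ / 8 by positivity)
      linarith
    have h8 : (X : ℝ) ^ υ ≤ δ₀ / 8 * H / Real.log X := by
      rw [le_div_iff₀ hL0]
      have e1 : δ₀ / 8 * ((8 / δ₀) * Real.log X * (X : ℝ) ^ υ) = (X : ℝ) ^ υ * Real.log X := by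
        field_simp
      have := mul_le_mul_of_nonneg_left (w3.trans hHθ) (show (0 : ℝ) ≤ δ₀ / 8 by positivity)
      linarith
    calc ((sqs X (τ / 4) υ H x).card : ℝ) ≤ H * (2 / (X : ℝ) ^ (τ / 4)) + (X : ℝ) ^ υ := h6
      _ ≤ H * (δ₀ / 8 / Real.log X) + δ₀ / 8 * H / Real.log X :=
          add_le_add (mul_le_mul_of_nonneg_left h7 hH0.le) h8
      _ = δ₀ / 4 * H / Real.log X := by
          field_simp
          ring
  have hr2 : 5 * Real.log X * (X : ℝ) ^ τ' ≤ δ₀ / 4 * H / Real.log X := by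
    rw [le_div_iff₀ hL0]
    have e1 : δ₀ / 4 * ((20 / δ₀) * Real.log X ^ 2 * (X : ℝ) ^ τ') = 5 * Real.log X * (X : ℝ) ^ τ' * Real.log X := by
      field_simp
      ring
    have := mul_le_mul_of_nonneg_left (w2.trans hHθ) (show (0 : ℝ) ≤ δ₀ / 4 by positivity)
    linarith
  have e2 : δ₀ * H / Real.log X = δ₀ / 2 * H / Real.log X + δ₀ / 4 * H / Real.log X + δ₀ / 4 * H / Real.log X := by
    ring
  linarith

end Pool.Agent.K3h89.SI
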